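import Pool.Agent.Helper62.WB.Goals
import Pool.Agent.Helper62.WB.Basic

/-!
# Project WB (MP_08df5f_al), packet S1: the supports are disjoint
-/

set_option autoImplicit false

namespace Pool.Agent.Helper93.WB

open Pool.Agent.Helper62.WB

variable {T : RTree} {D : Type} [Group D]

/-- on the points below `u` the conjugation commutator of `a` and `r ∈ Rist u` acts as `r`, if `a`
moves `u` -/
theorem comm_apply {b : TAct T D} {m : ℕ} {u : T.L m} {a r : D} (hr : r ∈ b.Rist u)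
    (ha : b.act m a u ≠ u) (y : T.Bd) (hy : y.1 m = u) :
    b.bd (a⁻¹ * (r⁻¹ * a * r)) y = b.bd r y := by
  have hr1 : b.act m r = 1 := Rist_act hr
  have e1 : (b.bd r y).1 m = u := by
    rw [TAct.bd_apply, hr1, hy]
    rfl
  have e2 : (b.bd a (b.bd r y)).1 m ≠ u := by
    rw [TAct.bd_apply, e1]
    exact ha
  have e3 : b.bd r⁻¹ (b.bd a (b.bd r y)) = b.bd a (b.bd r y) :=
    (mem_Rist_iff b u r⁻¹).1 (Rist_inv hr) _ e2
  rw [map_mul, map_mul, map_mul, Equiv.Perm.mul_apply, Equiv.Perm.mul_apply,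
    Equiv.Perm.mul_apply, e3, ← Equiv.Perm.mul_apply, ← map_mul, inv_mul_cancel, map_one,
    Equiv.Perm.one_apply]

theorem s1 (hRB : StmtRB) (_h0 : StmtS0) : StmtS1 := by
  intro T D _ b τ hb n v w hvw
  obtain ⟨hwb, _, h2⟩ := hb
  rw [Set.disjoint_left]
  rintro x ⟨rv, hrv, hxv⟩ ⟨rw', hrw, hxw⟩
  obtain ⟨k1, hk1⟩ := bd_ne hxv
  obtain ⟨k2, hk2⟩ := bd_ne hxw
  obtain ⟨k3, hk3⟩ := h2 n
  -- the level
  let m := max k1 (max k2 k3)
  have hm1 : k1 ≤ m := le_max_left _ _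
  have hm2 : k2 ≤ m := le_trans (le_max_left _ _) (le_max_right _ _)
  have hm3 : k3 ≤ m := le_trans (le_max_right _ _) (le_max_right _ _)
  have ha : b.act m (τ rv) (x.1 m) ≠ x.1 m := bd_ne_of_le hm1 hk1
  have ha' : b.act m (τ rw') (x.1 m) ≠ x.1 m := bd_ne_of_le hm2 hk2
  obtain ⟨r, hr, s, hs, hrs⟩ := hRB.1 T D b hwb m (x.1 m)
  have key : ∀ q : D, q ∈ b.Rist (x.1 m) → b.act n (τ.symm q) = 1 := fun q hq =>
    hk3 q (act_eq_one_of_le b hm3 (Rist_act hq))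
  have mem : ∀ (q : D) (z : T.L n) (c : D), q ∈ b.Rist (x.1 m) → c ∈ b.Rist z →
      c⁻¹ * ((τ.symm q)⁻¹ * c * τ.symm q) ∈ b.Rist z := by
    intro q z c hq hc
    refine Rist_mul (Rist_inv hc) ?_
    have e := Rist_conj hc (τ.symm q)⁻¹
    rw [map_inv, key q hq, inv_one, inv_inv] at e
    exact e
  have c1 := mem r v rv hr hrv
  have c2 := mem s w rw' hs hrw
  have hc := Rist_commute hwb hvw c1 c2
  have t1 : τ (rv⁻¹ * ((τ.symm r)⁻¹ * rv * τ.symm r)) = (τ rv)⁻¹ * (r⁻¹ * τ rv * r) := by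
    simp
  have t2 : τ (rw'⁻¹ * ((τ.symm s)⁻¹ * rw' * τ.symm s)) = (τ rw')⁻¹ * (s⁻¹ * τ rw' * s) := by
    simp
  have hc2 : τ (rv⁻¹ * ((τ.symm r)⁻¹ * rv * τ.symm r)) *
      τ (rw'⁻¹ * ((τ.symm s)⁻¹ * rw' * τ.symm s)) =
      τ (rw'⁻¹ * ((τ.symm s)⁻¹ * rw' * τ.symm s)) *
      τ (rv⁻¹ * ((τ.symm r)⁻¹ * rv * τ.symm r)) := by
    rw [← map_mul, ← map_mul, hc]
  rw [t1, t2] at hc2
  apply hrs
  apply bd_injective hwb
  ext y : 1
  rw [map_mul, map_mul, Equiv.Perm.mul_apply, Equiv.Perm.mul_apply]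
  by_cases hy : y.1 m = x.1 m
  · have e1 : (b.bd s y).1 m = x.1 m := by
      rw [TAct.bd_apply, Rist_act hs, hy]
      rfl
    have e2 : (b.bd r y).1 m = x.1 m := by
      rw [TAct.bd_apply, Rist_act hr, hy]
      rfl
    have f1 := comm_apply hr ha (b.bd s y) e1
    have f2 := comm_apply hs ha' y hy
    have f3 := comm_apply hs ha' (b.bd r y) e2
    have f4 := comm_apply hr ha y hy
    have hc3 := congrArg (fun q => b.bd q y) hc2
    simp only [map_mul b.bd, Equiv.Perm.mul_apply] at hc3 f1 f2 f3 f4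
    rw [f2, f4, f1, f3] at hc3
    exact hc3
  · have e1 : b.bd s y = y := (mem_Rist_iff b _ s).1 hs y hy
    have e2 : b.bd r y = y := (mem_Rist_iff b _ r).1 hr y hy
    rw [e1, e2, e1]

end Pool.Agent.Helper93.WB
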